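import Mathlib

/-!
# The negative type inequality for `d(A,B) = √(|A \ B|² + |B \ A|²)` fails on a five-element set

Let `𝒜` consist of the five edges of a pentagon on a five-element set and their complements, and
`ℬ` of the five edges of the complementary pentagon and their complements. Then
`Σ d(A_i,A_j) + Σ d(B_i,B_j) - Σ d(A_i,B_j) = 10 (√13 + 1 - 2 √5) > 0`.
-/

namespace Pool.Agent.Results.MP_314109_co.Pentagon

open Finset

/-- The distance `d(A,B) = √(|A \ B|² + |B \ A|²)`. -/
noncomputable def dist {n : ℕ} (A B : Finset (Fin n)) : ℝ :=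
  √(((A \ B).card : ℝ) ^ 2 + ((B \ A).card : ℝ) ^ 2)

/-- The radicand of `dist`, a natural number. -/
def q {n : ℕ} (A B : Finset (Fin n)) : ℕ := (A \ B).card ^ 2 + (B \ A).card ^ 2

lemma dist_eq {n : ℕ} (A B : Finset (Fin n)) : dist A B = √((q A B : ℕ) : ℝ) := by
  unfold dist q
  push_cast
  rfl

/-- The edges of a pentagon and their complements. -/
def famA : Fin 10 → Finset (Fin 5) :=
  ![{0, 1}, {1, 2}, {2, 3}, {3, 4}, {0, 4}, {2, 3, 4}, {0, 3, 4}, {0, 1, 4}, {0, 1, 2}, {1, 2, 3}]

/-- The edges of the complementary pentagon and their complements. -/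
def famB : Fin 10 → Finset (Fin 5) :=
  ![{0, 2}, {1, 3}, {2, 4}, {0, 3}, {1, 4}, {1, 3, 4}, {0, 2, 4}, {0, 1, 3}, {1, 2, 4}, {0, 2, 3}]

lemma sum_sqrt {α : Type} [DecidableEq α] (S : Finset α) (f : α → ℕ)
    (hf : ∀ a ∈ S, f a ∈ ({1, 2, 5, 8, 13} : Finset ℕ)) :
    ∑ a ∈ S, √((f a : ℕ) : ℝ) = (S.filter fun a => f a = 1).card * √1 +
      (S.filter fun a => f a = 2).card * √2 + (S.filter fun a => f a = 5).card * √5 +
      (S.filter fun a => f a = 8).card * √8 + (S.filter fun a => f a = 13).card * √13 := by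
  rw [← sum_fiberwise_of_maps_to hf]
  have h : ∀ v : ℕ, ∑ a ∈ S with f a = v, √((f a : ℕ) : ℝ) =
      (S.filter fun a => f a = v).card * √(v : ℝ) := by
    intro v
    rw [sum_congr rfl (g := fun _ => √(v : ℝ)) (fun a ha => by rw [(mem_filter.1 ha).2])]
    rw [sum_const, nsmul_eq_mul]
  simp only [h]
  rw [sum_insert (by decide), sum_insert (by decide), sum_insert (by decide),
    sum_insert (by decide), sum_singleton]
  push_cast
  ring

/-- The pairs of indices `i < j`. -/
def lt10 : Finset (Fin 10 × Fin 10) := univ.filter fun p => p.1 < p.2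

lemma sumA : ∑ p ∈ lt10, dist (famA p.1) (famA p.2) = 10 * √1 + 10 * √2 + 10 * √5 + 10 * √8 +
    5 * √13 := by
  simp only [dist_eq]
  rw [sum_sqrt lt10 (fun p => q (famA p.1) (famA p.2)) (by decide +kernel)]
  have h1 : (lt10.filter fun a => q (famA a.1) (famA a.2) = 1).card = 10 := by decide +kernel
  have h2 : (lt10.filter fun a => q (famA a.1) (famA a.2) = 2).card = 10 := by decide +kernel
  have h3 : (lt10.filter fun a => q (famA a.1) (famA a.2) = 5).card = 10 := by decide +kernel
  have h4 : (lt10.filter fun a => q (famA a.1) (famA a.2) = 8).card = 10 := by decide +kernel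
  have h5 : (lt10.filter fun a => q (famA a.1) (famA a.2) = 13).card = 5 := by decide +kernel
  rw [h1, h2, h3, h4, h5]
  norm_num

lemma sumB : ∑ p ∈ lt10, dist (famB p.1) (famB p.2) = 10 * √1 + 10 * √2 + 10 * √5 + 10 * √8 +
    5 * √13 := by
  simp only [dist_eq]
  rw [sum_sqrt lt10 (fun p => q (famB p.1) (famB p.2)) (by decide +kernel)]
  have h1 : (lt10.filter fun a => q (famB a.1) (famB a.2) = 1).card = 10 := by decide +kernel
  have h2 : (lt10.filter fun a => q (famB a.1) (famB a.2) = 2).card = 10 := by decide +kernel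
  have h3 : (lt10.filter fun a => q (famB a.1) (famB a.2) = 5).card = 10 := by decide +kernel
  have h4 : (lt10.filter fun a => q (famB a.1) (famB a.2) = 8).card = 10 := by decide +kernel
  have h5 : (lt10.filter fun a => q (famB a.1) (famB a.2) = 13).card = 5 := by decide +kernel
  rw [h1, h2, h3, h4, h5]
  norm_num

lemma sumAB : ∑ p : Fin 10 × Fin 10, dist (famA p.1) (famB p.2) = 10 * √1 + 40 * √2 + 40 * √5 +
    10 * √8 := by
  simp only [dist_eq]
  rw [sum_sqrt univ (fun p : Fin 10 × Fin 10 => q (famA p.1) (famB p.2)) (by decide +kernel)]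
  have h1 : ((univ : Finset (Fin 10 × Fin 10)).filter
    fun a => q (famA a.1) (famB a.2) = 1).card = 10 := by decide +kernel
  have h2 : ((univ : Finset (Fin 10 × Fin 10)).filter
    fun a => q (famA a.1) (famB a.2) = 2).card = 40 := by decide +kernel
  have h3 : ((univ : Finset (Fin 10 × Fin 10)).filter
    fun a => q (famA a.1) (famB a.2) = 5).card = 40 := by decide +kernel
  have h4 : ((univ : Finset (Fin 10 × Fin 10)).filter
    fun a => q (famA a.1) (famB a.2) = 8).card = 10 := by decide +kernel
  have h5 : ((univ : Finset (Fin 10 × Fin 10)).filter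
    fun a => q (famA a.1) (famB a.2) = 13).card = 0 := by decide +kernel
  rw [h1, h2, h3, h4, h5]
  norm_num

/-- The inequality fails: there are two families of `m = 10` distinct subsets of a five-element set
for which the sum of the distances within the families (over unordered pairs) is larger than the
sum of the distances between the families. -/
theorem result : ∃ (n m : ℕ) (A B : Fin m → Finset (Fin n)),
    n = 5 ∧ m = 10 ∧ Function.Injective A ∧ Function.Injective B ∧
    ∑ i : Fin m, ∑ j : Fin m, dist (A i) (B j) <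
      ∑ p ∈ univ.filter (fun p : Fin m × Fin m => p.1 < p.2), dist (A p.1) (A p.2) +
      ∑ p ∈ univ.filter (fun p : Fin m × Fin m => p.1 < p.2), dist (B p.1) (B p.2) := by
  refine ⟨5, 10, famA, famB, rfl, rfl, by decide +kernel, by decide +kernel, ?_⟩
  rw [← Fintype.sum_prod_type' (f := fun i j => dist (famA i) (famB j))]
  have hA := sumA
  have hB := sumB
  unfold lt10 at hA hB
  rw [hA, hB, sumAB]
  have h8 : √(8 : ℝ) = 2 * √2 := by
    rw [show (8 : ℝ) = 2 ^ 2 * 2 by norm_num, Real.sqrt_mul (by norm_num),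
      Real.sqrt_sq (by norm_num)]
  have h5 : √(5 : ℝ) < 2237 / 1000 := by
    rw [Real.sqrt_lt' (by norm_num)]; norm_num
  have h13 : (3605 / 1000 : ℝ) < √13 := by
    rw [Real.lt_sqrt (by norm_num)]; norm_num
  rw [h8, Real.sqrt_one]
  linarith

end Pool.Agent.Results.MP_314109_co.Pentagon
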